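import Pool.Agent.Y892.UF.W7

/-!
Upper bound for the number of exceptional `p q`: iteration.
-/

set_option autoImplicit false

namespace Pool.Agent.Y892.UG

open Finset Filter Pool.Agent.H38R2.CG Pool.Agent.H38R2.CG2 Pool.Agent.H38R2.CG3
open Pool.Agent.H38R2.CG.FINh Pool.Agent.Y892.UF
open scoped Classical

/-- exceptional numbers have exceptional discriminants -/
def ExcBd (a t0 : ℝ) (Exc : ℕ → Prop) : Prop :=
  ∃ X1 : ℕ, ∀ X : ℕ, X1 ≤ X → ∀ d : ℕ, 1 < d → Squarefree d → Exc d → X < Dof d →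
      Dof d ≤ 2 * X → IsFund (Dof d) ∧ Bd a t0 X (Dof d)

theorem upper (hBH : P2_BH) (hRC : P2_RC) (hAS : P3_AS0) (a : ℝ) (ha : 2 < a)
    (t0 : ℝ) (ht0 : 0 < t0) (Exc : ℕ → Prop) (hE : ExcBd a t0 Exc) (δ : ℝ) (hδ : 0 < δ) :
    ∃ C : ℝ, 0 ≤ C ∧ ∃ Z1 : ℕ, ∀ Z ≥ Z1,
      (((Finset.Ioc 0 Z).filter (fun D => Semi D ∧ Exc D)).card : ℝ) ≤
        δ * La Z * (Z / Real.log Z) + C * (Z / Real.log Z) := by
  obtain ⟨hcc0, hcc1⟩ := cc_bd ha
  obtain ⟨z, hz2, η, hη, hη1, X0, hX0⟩ := short_semi hAS hBH hRC a ha t0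
    ht0 (δ / 4) (by positivity)
  obtain ⟨X1, hX1⟩ := hE
  obtain ⟨X2, hX2⟩ := SR_ge a ha z
  obtain ⟨Z1, hZ1⟩ := PA_sub a ha
  obtain ⟨L, hL0, hCH1, hCH2, hCH3⟩ := T2_CH
  obtain ⟨m, hm⟩ : ∃ m : ℕ, (1 / 2 : ℝ) ^ m < cc a / 4 :=
    exists_pow_lt_of_lt_one (by linarith) (by norm_num)
  obtain ⟨Y0, hY0⟩ := PFh.sqrt_small (6 / η + 2 * ((X0 : ℝ) + X1 + X2) + 2) 1 one_pos
  refine ⟨1 + 4 * L * ((z : ℝ) + L + m * L), by positivity, max (max Z1 Y0) 16, fun Z hZ => ?_⟩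
  have hZa : Z1 ≤ Z := (le_max_left _ _).trans ((le_max_left _ _).trans hZ)
  have hZb : Y0 ≤ Z := (le_max_right _ _).trans ((le_max_left _ _).trans hZ)
  have hZ16 : 16 ≤ Z := (le_max_right _ _).trans hZ
  obtain ⟨hu, hW⟩ := hZ1 Z hZa
  have hYZ := hY0 Z hZb
  have hZr : (16 : ℝ) ≤ Z := by exact_mod_cast hZ16
  have hlZ : 0 < Real.log Z := Real.log_pos (by linarith)
  have hsZ : 0 ≤ √(Z : ℝ) := Real.sqrt_nonneg _
  have hLa : 0 ≤ La Z := La_nonneg Z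
  obtain ⟨G, hG⟩ : ∃ G : ℕ → Prop, ∀ D, G D ↔ (D ≤ Z ∧ Exc D ∧ ∃ p q : ℕ, p.Prime ∧
    q.Prime ∧ p < q ∧ p % 4 = 3 ∧ q % 4 = 3 ∧ D = p * q ∧ z < p ∧ p ∉ WZ a Z ∧
    (p : ℝ) ≤ (Z : ℝ) ^ (cc a / 4)) := ⟨_, fun _ => Iff.rfl⟩
  have hstep : ∀ X : ℕ, ((X0 : ℝ) + X1 + X2) + √(Z : ℝ) ≤ X →
      (NR G ⌊(1 + η) * X⌋₊ : ℝ) ≤ NR G X + (δ / 2 * La Z / Real.log Z) * η * X := by
    intro X hX
    have p0 : (0 : ℝ) ≤ X0 := by positivity
    have p1 : (0 : ℝ) ≤ X1 := by positivity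
    have p2 : (0 : ℝ) ≤ X2 := by positivity
    have hXX0 : X0 ≤ X := by
      have : (X0 : ℝ) ≤ X := by linarith
      exact_mod_cast this
    have hXX1 : X1 ≤ X := by
      have : (X1 : ℝ) ≤ X := by linarith
      exact_mod_cast this
    have hXX2 : X2 ≤ X := by
      have : (X2 : ℝ) ≤ X := by linarith
      exact_mod_cast this
    have hXZ : √(Z : ℝ) ≤ X := by linarith
    have hs1 : 1 < √(Z : ℝ) := by
      rw [Real.lt_sqrt (by norm_num)]
      linarith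
    have hXr : (1 : ℝ) < X := by linarith
    have hle : X ≤ ⌊(1 + η) * (X : ℝ)⌋₊ := by
      apply Nat.le_floor
      have : (0 : ℝ) ≤ X := by positivity
      nlinarith
    have h2 := NR_add G hle
    have h2' : (NR G ⌊(1 + η) * (X : ℝ)⌋₊ : ℝ) ≤
        NR G X + (((Finset.Ioc X ⌊(1 + η) * (X : ℝ)⌋₊).filter G).card : ℝ) := by
      exact_mod_cast h2
    refine h2'.trans ?_
    have hrhs : 0 ≤ (δ / 2 * La Z / Real.log Z) * η * X := by positivity
    rcases le_or_gt Z X with hcase | hcase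
    · have : (Finset.Ioc X ⌊(1 + η) * (X : ℝ)⌋₊).filter G = ∅ := by
        rw [filter_eq_empty_iff]
        intro D hD hDG
        rw [mem_Ioc] at hD
        have := ((hG D).1 hDG).1
        omega
      rw [this, card_empty, Nat.cast_zero]
      linarith
    have hlog : Real.log Z / 2 ≤ Real.log X := by
      have e1 := Real.log_le_log (by linarith) hXZ
      rwa [Real.log_sqrt (by linarith)] at e1
    have h3 := hX0 X hXX0 (hX2 X hXX2)
    have hsub : (Finset.Ioc X ⌊(1 + η) * (X : ℝ)⌋₊).filter G ⊆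
        (Finset.Ioc X ⌊(1 + η) * (X : ℝ)⌋₊).filter (fun D => (∃ p ∈ Pool.Agent.Y892.UF.RR a z X, ∃ q : ℕ, q.Prime ∧
          q % 4 = 3 ∧ D = p * q) ∧ Bd a t0 X D) := by
      intro D hD
      rw [mem_filter, hG] at hD
      rw [mem_filter]
      obtain ⟨hD1, hDZ, hDG, p, q, hp, hq, hpq, hp4, hq4, rfl, hzp, hpW, hpZ⟩ := hD
      have hpX : (p : ℝ) ≤ (X : ℝ) ^ (cc a / 2) := by
        refine hpZ.trans ?_
        calc (Z : ℝ) ^ (cc a / 4) = (√(Z : ℝ)) ^ (cc a / 2) := by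
              rw [Real.sqrt_eq_rpow, ← Real.rpow_mul (by linarith)]
              congr 1
              ring
          _ ≤ (X : ℝ) ^ (cc a / 2) := Real.rpow_le_rpow hsZ hXZ (by linarith)
      have hpX1 : (X : ℝ) ^ (cc a / 2) ≤ X := by
        calc (X : ℝ) ^ (cc a / 2) ≤ (X : ℝ) ^ (1 : ℝ) :=
              Real.rpow_le_rpow_of_exponent_le hXr.le (by linarith)
          _ = X := Real.rpow_one _
      have hpX2 : p ≤ X := by exact_mod_cast hpX.trans hpX1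
      refine ⟨hD1, ⟨p, ?_, q, hq, hq4, rfl⟩, ?_⟩
      · simp only [Pool.Agent.Y892.UF.RR, mem_filter, mem_Icc]
        exact ⟨⟨hp.one_lt.le, hpX2⟩, hp, hp4, hzp, fun h => hpW (hW X hXZ hcase.le h), hpX⟩
      · have hfd := isFund_pq hp hq hpq.ne hp4 hq4
        have hsq : Squarefree (p * q) :=
          (Nat.squarefree_mul ((Nat.coprime_primes hp hq).2 hpq.ne)).2 ⟨hp.squarefree, hq.squarefree⟩
        have hDof := Dof_semi hp4 hq4
        have h5 := hX1 X hXX1 (p * q) hfd.1 hsq hDG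
        rw [hDof] at h5
        refine (h5 (mem_Ioc.1 hD1).1 ?_).2
        have e1 := (mem_Ioc.1 hD1).2
        have e2 : ((⌊(1 + η) * (X : ℝ)⌋₊ : ℕ) : ℝ) ≤ (1 + η) * (X : ℝ) :=
          Nat.floor_le (by positivity)
        have e3 : ((p * q : ℕ) : ℝ) ≤ (⌊(1 + η) * (X : ℝ)⌋₊ : ℝ) := by exact_mod_cast e1
        have e5 : ((p * q : ℕ) : ℝ) ≤ 2 * (X : ℝ) := by
          have : (0 : ℝ) ≤ X := by positivity
          nlinarith
        exact_mod_cast e5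
    have h6 : (((Finset.Ioc X ⌊(1 + η) * (X : ℝ)⌋₊).filter G).card : ℝ) ≤
        δ / 4 * η * X * SR a z X / Real.log X := by
      refine le_trans ?_ h3
      exact_mod_cast card_le_card hsub
    have h7 : SR a z X ≤ La Z := by
      unfold SR La
      apply sum_le_sum_of_subset_of_nonneg
      · intro p hp
        simp only [Pool.Agent.Y892.UF.RR, mem_filter, mem_Icc] at hp
        rw [mem_P3]
        exact ⟨by omega, hp.2.1, hp.2.2.1⟩
      · intro p _ _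
        positivity
    have h8 : δ / 4 * η * X * SR a z X / Real.log X ≤ (δ / 2 * La Z / Real.log Z) * η * X := by
      calc δ / 4 * η * X * SR a z X / Real.log X ≤ δ / 4 * η * X * La Z / (Real.log Z / 2) := by
            apply div_le_div₀ (by positivity) _ (by positivity) hlog
            gcongr
        _ = (δ / 2 * La Z / Real.log Z) * η * X := by
            field_simp
            ring
    linarith
  have hit := PFh.iter (NR G) (NR_le G) (NR_mono G) η (δ / 2 * La Z / Real.log Z)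
    (((X0 : ℝ) + X1 + X2) + √(Z : ℝ)) hη hη1 (by positivity) (by positivity) hstep Z
  -- the others
  obtain ⟨T, hT⟩ : ∃ T : Finset ℕ, T = Icc 1 z ∪ (WZ a Z ∪
    (Finset.Ioc ⌊(Z : ℝ) ^ ((1 : ℝ) / 2 ^ m)⌋₊ ⌊(Z : ℝ)⌋₊).filter Nat.Prime) := ⟨_, rfl⟩
  have hTs : ∑ p ∈ T.filter Nat.Prime, 1 / (p : ℝ) ≤ (z : ℝ) + L + m * L := by
    have h9 : ∑ p ∈ Icc 1 z, 1 / (p : ℝ) ≤ z := by
      calc ∑ p ∈ Icc 1 z, 1 / (p : ℝ) ≤ ∑ _p ∈ Icc 1 z, (1 : ℝ) := by
            apply sum_le_sum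
            intro p hp
            rw [mem_Icc] at hp
            have : (1 : ℝ) ≤ p := by exact_mod_cast hp.1
            rw [div_le_one (by linarith)]
            exact this
        _ = z := by simp
    have h10 := WZ_sum hCH1 hu
    have h11 := block L hL0.le hCH1 m (Z : ℝ) (by linarith)
    calc ∑ p ∈ T.filter Nat.Prime, 1 / (p : ℝ) ≤ ∑ p ∈ T, 1 / (p : ℝ) :=
          sum_le_sum_of_subset_of_nonneg (filter_subset _ _) (fun p _ _ => by positivity)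
      _ ≤ ∑ p ∈ Icc 1 z, 1 / (p : ℝ) + ∑ p ∈ WZ a Z ∪
            (Finset.Ioc ⌊(Z : ℝ) ^ ((1 : ℝ) / 2 ^ m)⌋₊ ⌊(Z : ℝ)⌋₊).filter Nat.Prime, 1 / (p : ℝ) := by
          rw [hT]
          exact sum_un_le _ _ _ (fun p => by positivity)
      _ ≤ ∑ p ∈ Icc 1 z, 1 / (p : ℝ) + (∑ p ∈ WZ a Z, 1 / (p : ℝ) + ∑ p ∈
            (Finset.Ioc ⌊(Z : ℝ) ^ ((1 : ℝ) / 2 ^ m)⌋₊ ⌊(Z : ℝ)⌋₊).filter Nat.Prime,
              1 / (p : ℝ)) := by
          gcongr
          exact sum_un_le _ _ _ (fun p => by positivity)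
      _ ≤ (z : ℝ) + L + m * L := by linarith
  have hcT := cnt_T hL0 hCH3 hZ16 T
  have hcov : (Finset.Ioc 0 Z).filter (fun D => Semi D ∧ Exc D) ⊆
      (Finset.Ioc 0 Z).filter G ∪ (Finset.Ioc 0 Z).filter (fun D => ∃ p q : ℕ, p ∈ T ∧ p.Prime ∧
        q.Prime ∧ p < q ∧ D = p * q) := by
    intro D hD
    rw [mem_filter] at hD
    obtain ⟨hD1, ⟨p, q, hp, hq, hpq, hp4, hq4, rfl⟩, hDG⟩ := hD
    rw [mem_union, mem_filter, mem_filter]
    by_cases hpT : p ∈ T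
    · exact Or.inr ⟨hD1, p, q, hpT, hp, hq, hpq, rfl⟩
    · left
      rw [hT, mem_union, mem_union, mem_filter, mem_Ioc, mem_Icc] at hpT
      push Not at hpT
      obtain ⟨hT1, hT2, hT3⟩ := hpT
      refine ⟨hD1, (hG _).2 ⟨(mem_Ioc.1 hD1).2, hDG, p, q, hp, hq, hpq, hp4, hq4, rfl,
        hT1 hp.one_lt.le, hT2, ?_⟩⟩
      by_contra hcon
      push Not at hcon
      refine hT3 ⟨?_, ?_⟩ hp
      · rw [Nat.floor_lt (by positivity)]
        refine lt_of_le_of_lt ?_ hcon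
        apply Real.rpow_le_rpow_of_exponent_le (by linarith)
        rw [one_div, ← inv_pow, ← one_div]
        exact hm.le
      · rw [Nat.floor_natCast]
        have h5 : p * 1 ≤ p * q := Nat.mul_le_mul_left p hq.one_lt.le
        have h6 := (mem_Ioc.1 hD1).2
        omega
  have hcard : (((Finset.Ioc 0 Z).filter (fun D => Semi D ∧ Exc D)).card : ℝ) ≤
      (NR G Z : ℝ) + (((Finset.Ioc 0 Z).filter (fun D => ∃ p q : ℕ, p ∈ T ∧ p.Prime ∧
        q.Prime ∧ p < q ∧ D = p * q)).card : ℝ) := by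
    have := (card_le_card hcov).trans (card_union_le _ _)
    unfold NR
    exact_mod_cast this
  have e1 : 2 * (δ / 2 * La Z / Real.log Z) * (Z : ℝ) = δ * La Z * (Z / Real.log Z) := by
    field_simp
  have e2 : 4 * L * Z / Real.log Z * ∑ p ∈ T.filter Nat.Prime, 1 / (p : ℝ) ≤
      4 * L * ((z : ℝ) + L + m * L) * (Z / Real.log Z) := by
    calc 4 * L * Z / Real.log Z * ∑ p ∈ T.filter Nat.Prime, 1 / (p : ℝ) ≤
          4 * L * Z / Real.log Z * ((z : ℝ) + L + m * L) := by gcongr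
      _ = _ := by ring
  rw [e1] at hit
  have e3 : (1 + 4 * L * ((z : ℝ) + L + m * L)) * (Z / Real.log Z) =
      1 * Z / Real.log Z + 4 * L * ((z : ℝ) + L + m * L) * (Z / Real.log Z) := by ring
  rw [e3]
  linarith

end Pool.Agent.Y892.UG
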