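import Pool.Agent.Y892.UG.V5

/-!
Lower bound for the number of `p q`, and the limit.
-/

set_option autoImplicit false

namespace Pool.Agent.Y892.UG

open Finset Filter Pool.Agent.H38R2.CG Pool.Agent.H38R2.CG2 Pool.Agent.H38R2.CG3
open Pool.Agent.H38R2.CG.FINh Pool.Agent.Y892.UF
open scoped Classical

/-- the limit for the products of two primes -/
theorem semi_tendsto (hBH : P2_BH) (hRC : P2_RC) (hAS : P3_AS0) (a : ℝ) (ha : 2 < a)
    (t0 : ℝ) (ht0 : 0 < t0) (Exc : ℕ → Prop) (hE : ExcBd a t0 Exc) :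
    Tendsto (fun X : ℕ => (((Finset.Ioc 0 X).filter (fun D => Semi D ∧ Exc D)).card : ℝ) /
      (((Finset.Ioc 0 X).filter Semi).card : ℝ)) atTop (nhds 0) := by
  rw [Metric.tendsto_atTop]
  intro κ hκ
  obtain ⟨C, hC, Z1, hZ1⟩ := upper hBH hRC hAS a ha t0 ht0 Exc hE
    (κ / 64) (by positivity)
  obtain ⟨Z2, hZ2⟩ := lower
  obtain ⟨L, hL0, hCH1, -, -⟩ := T2_CH
  have ht : Tendsto (fun X : ℕ => La ⌊(X : ℝ) ^ ((1 : ℝ) / 2 ^ 2)⌋₊) atTop atTop :=
    La_tendsto.comp (tendsto_nat_floor_atTop.comp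
      ((tendsto_rpow_atTop (by norm_num)).comp tendsto_natCast_atTop_atTop))
  obtain ⟨Z3, hZ3⟩ := eventually_atTop.1 (ht.eventually_ge_atTop
    ((κ / 64 * (2 * L) + C) / (κ / 64) + 1))
  refine ⟨max (max Z1 Z2) (max Z3 3), fun Z hZ => ?_⟩
  have h1 := hZ1 Z ((le_max_left _ _).trans ((le_max_left _ _).trans hZ))
  have h2 := hZ2 Z ((le_max_right _ _).trans ((le_max_left _ _).trans hZ))
  have h3 := hZ3 Z ((le_max_left _ _).trans ((le_max_right _ _).trans hZ))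
  have hZ3' : (3 : ℝ) ≤ Z := by
    exact_mod_cast (le_max_right _ _).trans ((le_max_right _ _).trans hZ)
  have hlZ : 0 < Real.log Z := Real.log_pos (by linarith)
  obtain ⟨A, hA⟩ : ∃ A, A = La ⌊(Z : ℝ) ^ ((1 : ℝ) / 2 ^ 2)⌋₊ := ⟨_, rfl⟩
  rw [← hA] at h2 h3
  have h4' : La Z ≤ A + 2 * L := by
    have h5 := block L hL0.le hCH1 2 (Z : ℝ) (by linarith)
    have hsub : P3 Z ⊆ P3 ⌊(Z : ℝ) ^ ((1 : ℝ) / 2 ^ 2)⌋₊ ∪
        (Finset.Ioc ⌊(Z : ℝ) ^ ((1 : ℝ) / 2 ^ 2)⌋₊ ⌊(Z : ℝ)⌋₊).filter Nat.Prime := by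
      intro p hp
      rw [mem_P3] at hp
      rw [mem_union, mem_P3, mem_filter, mem_Ioc, Nat.floor_natCast]
      by_cases h6 : p ≤ ⌊(Z : ℝ) ^ ((1 : ℝ) / 2 ^ 2)⌋₊
      · exact Or.inl ⟨h6, hp.2⟩
      · exact Or.inr ⟨⟨not_le.1 h6, hp.1⟩, hp.2.1⟩
    have h6 : La Z ≤ La ⌊(Z : ℝ) ^ ((1 : ℝ) / 2 ^ 2)⌋₊ +
        ∑ p ∈ (Finset.Ioc ⌊(Z : ℝ) ^ ((1 : ℝ) / 2 ^ 2)⌋₊ ⌊(Z : ℝ)⌋₊).filter Nat.Prime,
          1 / (p : ℝ) := by
      unfold La
      exact (sum_le_sum_of_subset_of_nonneg hsub (fun p _ _ => by positivity)).trans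
        (sum_un_le _ _ _ (fun p => by positivity))
    rw [← hA] at h6
    push_cast at h5
    linarith
  obtain ⟨V, hV⟩ : ∃ V, V = (Z : ℝ) / Real.log Z := ⟨_, rfl⟩
  have hV0 : 0 < V := by rw [hV]; positivity
  rw [← hV] at h1 h2
  have h5 : (κ / 64 * (2 * L) + C) + κ / 64 ≤ κ / 64 * A := by
    have e : κ / 64 * ((κ / 64 * (2 * L) + C) / (κ / 64) + 1) =
        (κ / 64 * (2 * L) + C) + κ / 64 := by
      field_simp
    rw [← e]
    gcongr
  have hA0 : 0 < A := by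
    have h6 : 0 < κ / 64 * A := lt_of_lt_of_le (by positivity) h5
    by_contra hcon
    push Not at hcon
    have : κ / 64 * A ≤ 0 := mul_nonpos_of_nonneg_of_nonpos (by positivity) hcon
    linarith
  have hden : 0 < (((Finset.Ioc 0 Z).filter Semi).card : ℝ) :=
    lt_of_lt_of_le (by positivity) h2
  rw [Real.dist_eq, sub_zero, abs_of_nonneg (by positivity), div_lt_iff₀ hden]
  have h7 : κ / 64 * La Z * V + C * V ≤ 2 * (κ / 64) * A * V := by
    have h8 : κ / 64 * La Z ≤ κ / 64 * (A + 2 * L) := by gcongr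
    have h9 : κ / 64 * La Z + C ≤ 2 * (κ / 64) * A := by
      nlinarith
    calc κ / 64 * La Z * V + C * V = (κ / 64 * La Z + C) * V := by ring
      _ ≤ 2 * (κ / 64) * A * V := by gcongr
  have h10 : 2 * (κ / 64) * A * V = κ / 2 * (1 / 16 * A * V) := by ring
  have h11 : κ / 2 * (1 / 16 * A * V) ≤ κ / 2 * (((Finset.Ioc 0 Z).filter Semi).card : ℝ) := by
    gcongr
  have h12 : κ / 2 * (((Finset.Ioc 0 Z).filter Semi).card : ℝ) <
      κ * (((Finset.Ioc 0 Z).filter Semi).card : ℝ) := by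
    apply mul_lt_mul_of_pos_right _ hden
    linarith
  linarith

theorem two_tendsto (hBH : P2_BH) (hRC : P2_RC) (hAS : P3_AS0) (a : ℝ) (ha : 2 < a)
    (t0 : ℝ) (ht0 : 0 < t0) (Exc : ℕ → Prop) (hE : ExcBd a t0 Exc) :
    Tendsto (fun X : ℕ => (((Finset.Ioc 0 X).filter (fun D => Two D ∧ Exc D)).card : ℝ) /
      (((Finset.Ioc 0 X).filter Two).card : ℝ)) atTop (nhds 0) := by
  rw [Metric.tendsto_atTop]
  intro κ hκ
  obtain ⟨R, hR⟩ : ∃ R : ℕ → Prop, ∀ D, R D ↔ ∃ d : ℕ, Two d ∧ Exc d ∧ D = 4 * d :=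
    ⟨_, fun _ => Iff.rfl⟩
  obtain ⟨C, hC0, hC⟩ : ∃ C : ℝ, 0 ≤ C ∧ ∀ Z : ℕ, 2 ≤ Z →
      (NR R Z : ℝ) ≤ 4 * (κ / 2000) * Z / Real.log Z + C + 2 * √(Z : ℝ) := by
    obtain ⟨η, hη, hη1, X0, hX0⟩ := short_8 hAS hBH hRC a ha t0
      ht0 (κ / 2000) (by positivity)
    obtain ⟨X1, hX1⟩ := hE
    refine ⟨6 / η + 2 * ((X0 : ℝ) + X1) + 2, by positivity, fun Z hZ => ?_⟩
    have hZ2 : (2 : ℝ) ≤ Z := by exact_mod_cast hZ
    have hlZ : 0 < Real.log Z := Real.log_pos (by linarith)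
    have hsZ : 0 ≤ √(Z : ℝ) := Real.sqrt_nonneg _
    have hstep : ∀ X : ℕ, ((X0 : ℝ) + X1) + √(Z : ℝ) ≤ X →
        (NR R ⌊(1 + η) * X⌋₊ : ℝ) ≤ NR R X + 2 * (κ / 2000) / Real.log Z * η * X := by
      intro X hX
      have p0 : (0 : ℝ) ≤ X0 := by positivity
      have p1 : (0 : ℝ) ≤ X1 := by positivity
      have hXX0 : X0 ≤ X := by
        have : (X0 : ℝ) ≤ X := by linarith
        exact_mod_cast this
      have hXX1 : X1 ≤ X := by
        have : (X1 : ℝ) ≤ X := by linarith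
        exact_mod_cast this
      have hXZ : √(Z : ℝ) ≤ X := by linarith
      have hlog : Real.log Z / 2 ≤ Real.log X := by
        have e1 := Real.log_le_log (Real.sqrt_pos.2 (by linarith : (0 : ℝ) < Z)) hXZ
        rwa [Real.log_sqrt (by linarith)] at e1
      have hle : X ≤ ⌊(1 + η) * (X : ℝ)⌋₊ := by
        apply Nat.le_floor
        have : (0 : ℝ) ≤ X := by positivity
        nlinarith
      have h2 := NR_add R hle
      have h3 := hX0 X hXX0
      have h2' : (NR R ⌊(1 + η) * (X : ℝ)⌋₊ : ℝ) ≤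
          NR R X + (((Finset.Ioc X ⌊(1 + η) * (X : ℝ)⌋₊).filter R).card : ℝ) := by
        exact_mod_cast h2
      have hsub : (Finset.Ioc X ⌊(1 + η) * (X : ℝ)⌋₊).filter R ⊆
          (Finset.Ioc X ⌊(1 + η) * (X : ℝ)⌋₊).filter (fun D => (∃ p : ℕ, p.Prime ∧ D = 8 * p) ∧
            IsFund D ∧ Bd a t0 X D) := by
        intro D hD
        rw [mem_filter, hR] at hD
        rw [mem_filter]
        obtain ⟨hD1, d, ⟨p, hp, hp4, rfl⟩, hg, rfl⟩ := hD
        have hsq : Squarefree (2 * p) := by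
          rw [Nat.squarefree_mul]
          · exact ⟨Nat.prime_two.squarefree, hp.squarefree⟩
          · rw [Nat.coprime_primes Nat.prime_two hp]
            rintro rfl
            omega
        have h1 : 1 < 2 * p := by
          have := hp.two_le
          omega
        have hDof : Dof (2 * p) = 4 * (2 * p) := by
          unfold Dof
          rw [if_neg]
          omega
        refine ⟨hD1, ⟨p, hp, by ring⟩, ?_⟩
        have h5 := hX1 X hXX1 (2 * p) h1 hsq hg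
        rw [hDof] at h5
        refine h5 (mem_Ioc.1 hD1).1 ?_
        have e1 := (mem_Ioc.1 hD1).2
        have e2 : ((⌊(1 + η) * (X : ℝ)⌋₊ : ℕ) : ℝ) ≤ (1 + η) * (X : ℝ) :=
          Nat.floor_le (by positivity)
        have e3 : ((4 * (2 * p) : ℕ) : ℝ) ≤ (⌊(1 + η) * (X : ℝ)⌋₊ : ℝ) := by exact_mod_cast e1
        have e5 : ((4 * (2 * p) : ℕ) : ℝ) ≤ 2 * (X : ℝ) := by
          have : (0 : ℝ) ≤ X := by positivity
          nlinarith
        exact_mod_cast e5
      have h3' : (((Finset.Ioc X ⌊(1 + η) * (X : ℝ)⌋₊).filter R).card : ℝ) ≤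
          κ / 2000 * η * X / Real.log X := by
        refine le_trans ?_ h3
        exact_mod_cast card_le_card hsub
      have h4 : κ / 2000 * η * X / Real.log X ≤ 2 * (κ / 2000) / Real.log Z * η * X := by
        calc κ / 2000 * η * X / Real.log X ≤ κ / 2000 * η * X / (Real.log Z / 2) := by
              apply div_le_div_of_nonneg_left (by positivity) (by positivity) hlog
          _ = 2 * (κ / 2000) / Real.log Z * η * X := by
              field_simp
      linarith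
    have h5 := PFh.iter (NR R) (NR_le R) (NR_mono R) η (2 * (κ / 2000) / Real.log Z)
      (((X0 : ℝ) + X1) + √(Z : ℝ)) hη hη1 (by positivity) (by positivity) hstep Z
    have h6 : 2 * (2 * (κ / 2000) / Real.log Z) * (Z : ℝ) = 4 * (κ / 2000) * Z / Real.log Z := by
      ring
    rw [h6] at h5
    linarith
  obtain ⟨Y0, hY0⟩ := eventually_atTop.1 P3_lower
  obtain ⟨Y1, hY1⟩ := PFh.sqrt_small C (κ / 200) (by positivity)
  refine ⟨max (max (2 * Y0 + 1) Y1) 8, fun Y hY => ?_⟩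
  have hYa : 2 * Y0 + 1 ≤ Y := le_trans (le_max_left _ _) (le_trans (le_max_left _ _) hY)
  have hYb : Y1 ≤ Y := le_trans (le_max_right _ _) (le_trans (le_max_left _ _) hY)
  have hYc : 8 ≤ Y := le_trans (le_max_right _ _) hY
  have hYr : (8 : ℝ) ≤ Y := by exact_mod_cast hYc
  have hl : 0 < Real.log Y := Real.log_pos (by linarith)
  -- lower bound
  have hlow : (1 / 32 : ℝ) * (Y / Real.log Y) ≤ (((Finset.Ioc 0 Y).filter Two).card : ℝ) := by
    have h1 := hY0 (Y / 2) (by omega)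
    have h2 : (P3 (Y / 2)).card ≤ ((Finset.Ioc 0 Y).filter Two).card := by
      refine card_le_card_of_injOn (fun p => 2 * p) ?_ ?_
      · intro p hp
        rw [mem_coe, mem_P3] at hp
        rw [mem_coe, mem_filter, mem_Ioc]
        have h9 := hp.2.1.pos
        have h10 := hp.1
        refine ⟨⟨?_, ?_⟩, p, hp.2.1, hp.2.2, rfl⟩
        · show 0 < 2 * p
          omega
        · show 2 * p ≤ Y
          omega
      · intro p _ q _ h
        have : 2 * p = 2 * q := h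
        omega
    have h3 : ((P3 (Y / 2)).card : ℝ) ≤ (((Finset.Ioc 0 Y).filter Two).card : ℝ) := by
      exact_mod_cast h2
    refine le_trans ?_ (h1.trans h3)
    have h4 : (2 : ℝ) ≤ ((Y / 2 : ℕ) : ℝ) := by exact_mod_cast (by omega : 2 ≤ Y / 2)
    have h5 : 0 < Real.log ((Y / 2 : ℕ) : ℝ) := Real.log_pos (by linarith)
    have h6 : ((Y / 2 : ℕ) : ℝ) ≤ Y := by exact_mod_cast Nat.div_le_self Y 2
    have h7 : Real.log ((Y / 2 : ℕ) : ℝ) ≤ Real.log Y := Real.log_le_log (by linarith) h6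
    have h8 : (Y : ℝ) ≤ 4 * ((Y / 2 : ℕ) : ℝ) := by
      exact_mod_cast (by omega : Y ≤ 4 * (Y / 2))
    calc (1 / 32 : ℝ) * (Y / Real.log Y) ≤ 1 / 32 * (4 * ((Y / 2 : ℕ) : ℝ) /
          Real.log ((Y / 2 : ℕ) : ℝ)) := by
          apply mul_le_mul_of_nonneg_left _ (by norm_num)
          exact div_le_div₀ (by positivity) h8 h5 h7
      _ = 1 / 8 * (((Y / 2 : ℕ) : ℝ) / Real.log ((Y / 2 : ℕ) : ℝ)) := by ring
  have hden : 0 < (((Finset.Ioc 0 Y).filter Two).card : ℝ) :=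
    lt_of_lt_of_le (by positivity) hlow
  rw [Real.dist_eq, sub_zero, abs_of_nonneg (by positivity), div_lt_iff₀ hden]
  have hcn : ((Finset.Ioc 0 Y).filter (fun d => Two d ∧ Exc d)).card ≤ NR R (4 * Y) := by
    unfold NR
    refine Finset.card_le_card_of_injOn (fun d => 4 * d) ?_ ?_
    · intro d hd
      rw [Finset.mem_coe, Finset.mem_filter, Finset.mem_Ioc] at hd
      rw [Finset.mem_coe, Finset.mem_filter, Finset.mem_Ioc, hR]
      refine ⟨⟨?_, ?_⟩, d, hd.2.1, hd.2.2, rfl⟩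
      · show 0 < 4 * d
        omega
      · show 4 * d ≤ 4 * Y
        omega
    · intro d _ d' _ h
      have : 4 * d = 4 * d' := h
      omega
  have hc : (((Finset.Ioc 0 Y).filter (fun d => Two d ∧ Exc d)).card : ℝ) ≤
      NR R (4 * Y) := by exact_mod_cast hcn
  have hb := hC (4 * Y) (by omega)
  have h4 : √(((4 * Y : ℕ) : ℝ)) = 2 * √(Y : ℝ) := by
    push_cast
    rw [Real.sqrt_mul (by norm_num)]
    congr 1
    rw [show (4 : ℝ) = 2 ^ 2 by norm_num]
    exact Real.sqrt_sq (by norm_num)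
  have h5 : 4 * (κ / 2000) * ((4 * Y : ℕ) : ℝ) / Real.log ((4 * Y : ℕ) : ℝ) ≤
      4 * (κ / 2000) * (4 * Y) / Real.log Y := by
    push_cast
    apply div_le_div_of_nonneg_left (by positivity) hl
    apply Real.log_le_log (by linarith)
    linarith
  have h6 := hY1 Y hYb
  have h7 : 4 * (κ / 2000) * (4 * (Y : ℝ)) / Real.log Y = (1 / 125) * (κ * (Y / Real.log Y)) := by
    ring
  have h8 : κ / 200 * (Y : ℝ) / Real.log Y = (1 / 200) * (κ * (Y / Real.log Y)) := by ring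
  have h9 : 0 < κ * (Y / Real.log Y) := by positivity
  have h10 : (1 / 32 : ℝ) * (κ * (Y / Real.log Y)) ≤
      κ * (((Finset.Ioc 0 Y).filter Two).card : ℝ) := by
    calc (1 / 32 : ℝ) * (κ * (Y / Real.log Y)) = κ * (1 / 32 * (Y / Real.log Y)) := by ring
      _ ≤ _ := mul_le_mul_of_nonneg_left hlow hκ.le
  rw [h4] at hb
  rw [h7] at h5
  rw [h8] at h6
  linarith


end Pool.Agent.Y892.UG
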