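import Pool.Agent.Y892.UG.V6
import Pool.Agent.Y892.UF.W8
import Pool.Agent.H951R5.AR.All

/-!
Assembly: units and unique factorisation from relations between tiny primes.
-/

set_option autoImplicit false

namespace Pool.Agent.Y892.UG

open Finset Filter Pool.Agent.H38R2.CG Pool.Agent.H38R2.CG2 Pool.Agent.H38R2.CG3
open Pool.Agent.H951R5.AR Pool.Agent.Y892.UF
open scoped Classical

theorem excBd_AR (a : ℝ) (ha : 2 < a) : ExcBd a (1 / 4) (fun d => ¬ GoodAR a d) := by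
  have h := exc_bd' T_N0 T_N0d (T_N1 (T_SPL T_N0)) N3_true
    (T_N5 N3_true N4_true (T_N5a T_KF) (T_N5b T_KF N4_true)) (T_N6 T_KF) a ha
  exact h

theorem semi_limAR (a : ℝ) (ha : 2 < a) :
    Tendsto (fun X : ℕ => (((Finset.Ioc 0 X).filter (fun D => Semi D ∧ ¬ GoodAR a D)).card : ℝ) /
      (((Finset.Ioc 0 X).filter Semi).card : ℝ)) atTop (nhds 0) := by
  have h := semi_tendsto BH_true T2_RC AS0_true a ha (1 / 4) (by norm_num)
    (fun d => ¬ GoodAR a d) (excBd_AR a ha)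
  convert h

theorem two_limAR (a : ℝ) (ha : 2 < a) :
    Tendsto (fun X : ℕ => (((Finset.Ioc 0 X).filter (fun D => Two D ∧ ¬ GoodAR a D)).card : ℝ) /
      (((Finset.Ioc 0 X).filter Two).card : ℝ)) atTop (nhds 0) := by
  have h := two_tendsto BH_true T2_RC AS0_true a ha (1 / 4) (by norm_num)
    (fun d => ¬ GoodAR a d) (excBd_AR a ha)
  convert h

theorem prime_limAR (a : ℝ) (ha : 2 < a) :
    Tendsto (fun X : ℕ => (((Finset.Ioc 0 X).filter (fun D => D.Prime ∧ ¬ GoodAR a D)).card : ℝ) /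
      (((Finset.Ioc 0 X).filter Nat.Prime).card : ℝ)) atTop (nhds 0) := by
  refine (finalARP_true a ha).congr (fun X => ?_)
  have e1 : (Nat.card {p : ℕ // p ≤ X ∧ p.Prime ∧ ¬ GoodAR a p}) =
      ((Finset.Ioc 0 X).filter (fun p => p.Prime ∧ ¬ GoodAR a p)).card := by
    refine Nat.subtype_card _ fun p => ?_
    rw [Finset.mem_filter, Finset.mem_Ioc]
    constructor
    · rintro ⟨⟨-, h2⟩, h3, h4⟩
      exact ⟨h2, h3, h4⟩
    · rintro ⟨h2, h3, h4⟩
      exact ⟨⟨h3.pos, h2⟩, h3, h4⟩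
  have e2 : (Nat.card {p : ℕ // p ≤ X ∧ p.Prime}) =
      ((Finset.Ioc 0 X).filter Nat.Prime).card := by
    refine Nat.subtype_card _ fun p => ?_
    rw [Finset.mem_filter, Finset.mem_Ioc]
    constructor
    · rintro ⟨⟨-, h2⟩, h3⟩
      exact ⟨h2, h3⟩
    · rintro ⟨h2, h3⟩
      exact ⟨⟨h3.pos, h2⟩, h3⟩
  rw [e1, e2]

theorem cand_limAR (a : ℝ) (ha : 2 < a) :
    Tendsto (fun X : ℕ => (((Finset.Ioc 0 X).filter
      (fun D => (D.Prime ∨ Two D ∨ Semi D) ∧ ¬ GoodAR a D)).card : ℝ) /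
      (((Finset.Ioc 0 X).filter (fun D => D.Prime ∨ Two D ∨ Semi D)).card : ℝ)) atTop (nhds 0) := by
  have key := union_lim Nat.Prime Two Semi (fun D => ¬ GoodAR a D)
    (by convert prime_limAR a ha) (by convert two_limAR a ha) (by convert semi_limAR a ha)
  convert key

end Pool.Agent.Y892.UG
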